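import Pool.Agent.W617.LG.StmIV

set_option autoImplicit false

open Topology Filter Set
open scoped ContDiff InnerProductSpace

namespace Pool.Agent.W298.LG

open Pool.Agent.W617.LG

variable {q : ℕ} {C : TF q} {τ : E q → ℝ}

/-- expansion of a vector orthogonal to `x` in the frame -/
theorem expand {x : E q} {e : Fin (q + 1) → E q} (h : AF C x e) (v : E q) (hv : ⟪x, v⟫_ℝ = 0) :
    v = ∑ j, ⟪e j, v⟫_ℝ • e j := by
  have hx : ‖x‖ ≠ 0 := norm_ne_zero_iff.2 h.x0
  let f : Fin (q + 2) → E q := Fin.cons (‖x‖⁻¹ • x) e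
  have hf : Orthonormal ℝ f := by
    rw [orthonormal_iff_ite]
    intro i j
    refine Fin.cases ?_ (fun i => ?_) i
    · refine Fin.cases ?_ (fun j => ?_) j
      · simp only [f, Fin.cons_zero, real_inner_self_eq_norm_sq, if_true]
        rw [norm_smul, norm_inv, norm_norm, inv_mul_cancel₀ hx, one_pow]
      · simp only [f, Fin.cons_zero, Fin.cons_succ, real_inner_smul_left, h.rad j, mul_zero]
        rw [if_neg (Fin.succ_ne_zero j).symm]
    · refine Fin.cases ?_ (fun j => ?_) j
      · simp only [f, Fin.cons_zero, Fin.cons_succ, real_inner_smul_right]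
        rw [real_inner_comm, h.rad i, mul_zero, if_neg (Fin.succ_ne_zero i)]
      · simp only [f, Fin.cons_succ, h.on i j, Fin.succ_inj]
  have hcard : Fintype.card (Fin (q + 2)) = Module.finrank ℝ (E q) := by simp
  let b := basisOfOrthonormalOfCardEqFinrank hf hcard
  have hb : ⇑b = f := coe_basisOfOrthonormalOfCardEqFinrank hf hcard
  let ob := b.toOrthonormalBasis (by rw [hb]; exact hf)
  have hob : ∀ i, ob i = f i := by
    intro i
    rw [Module.Basis.coe_toOrthonormalBasis, hb]
  have h1 := ob.sum_repr' v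
  rw [Fin.sum_univ_succ] at h1
  simp only [hob, f, Fin.cons_zero, Fin.cons_succ, real_inner_smul_left, hv, mul_zero, zero_smul,
    zero_add] at h1
  exact h1.symm

theorem eig (hL : LW q C τ) {x : E q} {e : Fin (q + 1) → E q} (h : AF C x e) (j : Fin (q + 1)) :
    C x (e j) (e j) = lam C x (e j) • e j := by
  have h0 : ⟪x, C x (e j) (e j)⟫_ℝ = 0 := by
    rw [real_inner_comm, hL.symm x h.x0, hL.comm12 x h.x0, hL.rad x h.x0]
    simp
  have h1 := expand h _ h0
  rw [Finset.sum_eq_single j] at h1
  · unfold lam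
    rw [real_inner_comm] at h1
    exact h1
  · intro m _ hm
    rw [real_inner_comm, hL.symm x h.x0, h.diag j m hm.symm]
    simp
  · simp

/-- all members of a good frame are, up to sign, members of any other good frame -/
theorem members (hL : LW q C τ) {x : E q} {e f : Fin (q + 1) → E q} (he : GF C x e)
    (hf : GF C x f) (i : Fin (q + 1)) : ∃ j, f i = e j ∨ f i = -e j := by
  have hexf : ∀ i, f i = ∑ j, ⟪e j, f i⟫_ℝ • e j := fun i => expand he.toAF _ (hf.rad i)
  have hexe : ∀ j, e j = ∑ i, ⟪f i, e j⟫_ℝ • f i := fun j => expand hf.toAF _ (he.rad j)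
  have hone : ∀ j, ‖e j‖ = 1 := by
    intro j
    have h1 := he.on j j
    rw [if_pos rfl, real_inner_self_eq_norm_sq] at h1
    nlinarith [norm_nonneg (e j)]
  have honf : ∀ j, ‖f j‖ = 1 := by
    intro j
    have h1 := hf.on j j
    rw [if_pos rfl, real_inner_self_eq_norm_sq] at h1
    nlinarith [norm_nonneg (f j)]
  -- products of coefficients vanish
  have hprod : ∀ i k, i ≠ k → ∀ l : Fin q, ⟪e l.succ, f i⟫_ℝ * ⟪e l.succ, f k⟫_ℝ = 0 := by
    intro i k hik l
    have h1 : C x (f i) (e l.succ) = (⟪e l.succ, f i⟫_ℝ * lam C x (e l.succ)) • e l.succ := by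
      conv_lhs => rw [hexf i]
      rw [map_sum, sum_apply, Finset.sum_eq_single l.succ]
      · rw [map_smul, smul_apply, eig hL he.toAF, smul_smul]
      · intro m _ hm
        rw [map_smul, smul_apply, he.diag _ _ hm, smul_zero]
      · simp
    have h2 : ⟪C x (f i) (f k), e l.succ⟫_ℝ = 0 := by
      rw [hf.diag i k hik, inner_zero_left]
    rw [hL.symm x he.x0, h1, real_inner_smul_left] at h2
    have h3 := (he.pos l).ne'
    have h4 : lam C x (e l.succ) * (⟪e l.succ, f i⟫_ℝ * ⟪e l.succ, f k⟫_ℝ) = 0 := by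
      linarith
    exact (mul_eq_zero.1 h4).resolve_left h3
  -- unit multiples
  have hunit : ∀ (j : Fin (q + 1)) (r : ℝ), f i = r • e j → f i = e j ∨ f i = -e j := by
    intro j r hr
    have h1 : |r| = 1 := by
      have h2 := honf i
      rw [hr, norm_smul, hone j, mul_one, Real.norm_eq_abs] at h2
      exact h2
    rcases eq_or_eq_neg_of_abs_eq h1 with h | h
    · left; rw [hr, h, one_smul]
    · right; rw [hr, h, neg_smul, one_smul]
  by_cases hex : ∃ l : Fin q, ⟪e l.succ, f i⟫_ℝ ≠ 0
  · obtain ⟨l, hl⟩ := hex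
    refine ⟨l.succ, ?_⟩
    have h1 : e l.succ = ⟪f i, e l.succ⟫_ℝ • f i := by
      conv_lhs => rw [hexe l.succ]
      rw [Finset.sum_eq_single i]
      · intro k _ hk
        have h2 := (mul_eq_zero.1 (hprod i k hk.symm l)).resolve_left hl
        rw [real_inner_comm, h2, zero_smul]
      · simp
    have h3 : ⟪f i, e l.succ⟫_ℝ ≠ 0 := by rwa [real_inner_comm]
    apply hunit l.succ (⟪f i, e l.succ⟫_ℝ)⁻¹
    exact (inv_smul_eq_iff₀ h3).2 h1 |>.symm
  · push Not at hex
    refine ⟨0, hunit 0 ⟪e 0, f i⟫_ℝ ?_⟩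
    conv_lhs => rw [hexf i]
    rw [Fin.sum_univ_succ]
    simp [hex]

theorem fib : S_FIB := by
  intro q C τ hL
  constructor
  · intro x
    rcases Set.eq_empty_or_nonempty {f | GF C x f} with h | ⟨e, he⟩
    · rw [h, Set.encard_empty]
      exact zero_le
    · let F : (Fin (q + 1) → Fin (q + 1) × Bool) → (Fin (q + 1) → E q) :=
        fun g i => if (g i).2 then e (g i).1 else -e (g i).1
      have hsub : {f | GF C x f} ⊆ F '' Set.univ := by
        intro f hf
        have h1 : ∀ i, ∃ p : Fin (q + 1) × Bool, f i = if p.2 then e p.1 else -e p.1 := by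
          intro i
          obtain ⟨j, hj | hj⟩ := members hL he hf i
          · exact ⟨(j, true), by simpa using hj⟩
          · exact ⟨(j, false), by simpa using hj⟩
        choose g hg using h1
        exact ⟨g, Set.mem_univ _, funext fun i => (hg i).symm⟩
      refine (Set.encard_le_encard hsub).trans ((Set.encard_image_le _ _).trans ?_)
      rw [Set.encard_univ, ENat.card_eq_coe_fintype_card]
      simp [mul_comm]
  · intro x e f he hf hclose
    have hone : ∀ j, ‖e j‖ = 1 := by
      intro j
      have h1 := he.on j j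
      rw [if_pos rfl, real_inner_self_eq_norm_sq] at h1
      nlinarith [norm_nonneg (e j)]
    funext i
    obtain ⟨j, hj⟩ := members hL he hf i
    have hc := hclose i
    have hsq : ‖e i - f i‖ ^ 2 < 1 := by
      nlinarith [norm_nonneg (e i - f i)]
    by_cases hij : i = j
    · subst hij
      rcases hj with hj | hj
      · exact hj.symm
      · exfalso
        rw [hj, sub_neg_eq_add, ← two_smul ℝ, norm_smul, hone] at hc
        norm_num at hc
    · exfalso
      have h0 : ⟪e i, f i⟫_ℝ = 0 := by
        rcases hj with hj | hj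
        · rw [hj, he.on, if_neg hij]
        · rw [hj, inner_neg_right, he.on, if_neg hij, neg_zero]
      have hfi : ‖f i‖ = 1 := by
        rcases hj with hj | hj
        · rw [hj, hone]
        · rw [hj, norm_neg, hone]
      rw [norm_sub_sq_real, h0, hone, hfi] at hsq
      norm_num at hsq

end Pool.Agent.W298.LG
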