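import Pool.Agent.W298.LG.Smx

set_option autoImplicit false
set_option maxSynthPendingDepth 5

open Topology Filter Set
open scoped ContDiff InnerProductSpace

namespace Pool.Agent.W298.LG

open Pool.Agent.W617.LG

/-- orthonormal frames orthogonal to the base point, over the annulus -/
def SS (q : ℕ) : Set (FB q) :=
  {z | (1 ≤ ‖z.1‖ ∧ ‖z.1‖ ≤ 2) ∧ (∀ i j, ⟪z.2 i, z.2 j⟫_ℝ = if i = j then 1 else 0) ∧
    ∀ i, ⟪z.1, z.2 i⟫_ℝ = 0}

theorem SS_closed (q : ℕ) : IsClosed (SS q) := by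
  have h : SS q = ({z | 1 ≤ ‖z.1‖} ∩ {z | ‖z.1‖ ≤ 2}) ∩
      ((⋂ i, ⋂ j, {z | ⟪z.2 i, z.2 j⟫_ℝ = if i = j then 1 else 0}) ∩
        ⋂ i, {z | ⟪z.1, z.2 i⟫_ℝ = 0}) := by
    ext z
    simp [SS]
  rw [h]
  refine IsClosed.inter (IsClosed.inter ?_ ?_) (IsClosed.inter ?_ ?_)
  · exact isClosed_le continuous_const (by fun_prop)
  · exact isClosed_le (by fun_prop) continuous_const
  · refine isClosed_iInter fun i => isClosed_iInter fun j => ?_
    exact isClosed_eq (by fun_prop) continuous_const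
  · refine isClosed_iInter fun i => ?_
    exact isClosed_eq (by fun_prop) continuous_const

theorem SS_compact (q : ℕ) : IsCompact (SS q) := by
  apply Metric.isCompact_of_isClosed_isBounded (SS_closed q)
  rw [isBounded_iff_forall_norm_le]
  refine ⟨2, fun z hz => ?_⟩
  rw [norm_prod_le_iff]
  refine ⟨hz.1.2, ?_⟩
  rw [pi_norm_le_iff_of_nonneg (by norm_num)]
  intro i
  have h1 := hz.2.1 i i
  rw [if_pos rfl, real_inner_self_eq_norm_sq] at h1
  nlinarith [norm_nonneg (z.2 i)]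

theorem SS_ne {q : ℕ} {z : FB q} (hz : z ∈ SS q) : z.1 ≠ 0 := by
  intro h
  have := hz.1.1
  rw [h, norm_zero] at this
  linarith

theorem GA_sub {q : ℕ} {C : TF q} {z : FB q} (hz : z ∈ GA C) : z ∈ SS q :=
  ⟨hz.2, hz.1.on, hz.1.rad⟩

theorem cpt : S_CPT := by
  intro q C τ h
  constructor
  · intro δ hδ
    apply (SS_compact q).of_isClosed_subset _ (fun z hz => GA_sub hz.1)
    have hc1 : ContinuousOn (fun z : FB q => fun (ij : Fin (q + 1) × Fin (q + 1)) =>
        C z.1 (z.2 ij.1) (z.2 ij.2)) (SS q) := by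
      rw [continuousOn_pi]
      intro ij z hz
      exact (((cd_C h z (SS_ne hz)).clm_apply (cd_e ij.1 z)).clm_apply
        (cd_e ij.2 z)).continuousAt.continuousWithinAt
    have hc2 : ContinuousOn (fun z : FB q => fun (l : Fin q) =>
        lam C z.1 (z.2 l.succ)) (SS q) := by
      rw [continuousOn_pi]
      intro l z hz
      exact (cd_lam h l.succ z (SS_ne hz)).continuousAt.continuousWithinAt
    have hK : Kd C δ = SS q ∩ (fun z : FB q => ((fun (ij : Fin (q + 1) × Fin (q + 1)) =>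
        C z.1 (z.2 ij.1) (z.2 ij.2)), fun (l : Fin q) => lam C z.1 (z.2 l.succ))) ⁻¹'
        {p : (Fin (q + 1) × Fin (q + 1) → E q) × (Fin q → ℝ) |
          (∀ ij, ij.1 ≠ ij.2 → p.1 ij = 0) ∧ ∀ l, δ ≤ p.2 l} := by
      ext z
      constructor
      · rintro ⟨hz, hl⟩
        exact ⟨GA_sub hz, fun ij hij => hz.1.diag _ _ hij, hl⟩
      · rintro ⟨hz, h1, h2⟩
        refine ⟨⟨⟨⟨SS_ne hz, hz.2.1, hz.2.2, fun i j hij => h1 (i, j) hij⟩, ?_⟩, hz.1.1, hz.1.2⟩, h2⟩
        intro l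
        exact lt_of_lt_of_le hδ (h2 l)
    rw [hK]
    apply (hc1.prodMk hc2).preimage_isClosed_of_isClosed (SS_closed q)
    have hs : {p : (Fin (q + 1) × Fin (q + 1) → E q) × (Fin q → ℝ) |
          (∀ ij, ij.1 ≠ ij.2 → p.1 ij = 0) ∧ ∀ l, δ ≤ p.2 l} =
        (⋂ ij : Fin (q + 1) × Fin (q + 1), ⋂ (_ : ij.1 ≠ ij.2), {p | p.1 ij = 0}) ∩
          ⋂ l : Fin q, {p | δ ≤ p.2 l} := by
      ext p
      simp
    rw [hs]
    refine IsClosed.inter ?_ ?_
    · refine isClosed_iInter fun ij => isClosed_iInter fun _ => ?_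
      exact isClosed_eq (by fun_prop) continuous_const
    · refine isClosed_iInter fun l => ?_
      exact isClosed_le continuous_const (by fun_prop)
  · have hb : ∀ l : Fin q, ∃ K, ∀ z ∈ SS q,
        |(∏ m ∈ Finset.univ.erase l, lam C z.1 (z.2 m.succ)) *
          dlam C z.1 (z.2 0) (z.2 l.succ)| ≤ K := by
      intro l
      have hc : ContinuousOn (fun z : FB q => (∏ m ∈ Finset.univ.erase l, lam C z.1 (z.2 m.succ)) *
          dlam C z.1 (z.2 0) (z.2 l.succ)) (SS q) := by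
        intro z hz
        have h1 : ContDiffAt ℝ ∞ (fun z : FB q =>
            (∏ m ∈ Finset.univ.erase l, lam C z.1 (z.2 m.succ)) *
              dlam C z.1 (z.2 0) (z.2 l.succ)) z :=
          (contDiffAt_prod fun m _ => cd_lam h m.succ z (SS_ne hz)).mul
            (cd_dlam h 0 l.succ z (SS_ne hz))
        exact h1.continuousAt.continuousWithinAt
      obtain ⟨K, hK⟩ := (SS_compact q).exists_bound_of_continuousOn hc
      exact ⟨K, fun z hz => hK z hz⟩
    choose K hK using hb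
    refine ⟨∑ l, |K l| + 1, by positivity, ?_⟩
    intro z hz l
    have hl : lam C z.1 (z.2 l.succ) ≠ 0 := (hz.1.pos l).ne'
    have h1 : PP C z.1 z.2 * (lam C z.1 (z.2 l.succ) * bb C z.1 z.2 l) =
        (∏ m ∈ Finset.univ.erase l, lam C z.1 (z.2 m.succ)) *
          dlam C z.1 (z.2 0) (z.2 l.succ) := by
      unfold PP bb
      rw [← Finset.mul_prod_erase Finset.univ (fun m : Fin q => lam C z.1 (z.2 m.succ))
        (Finset.mem_univ l)]
      field_simp
    rw [h1]
    refine (hK l z (GA_sub hz)).trans ((le_abs_self _).trans ?_)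
    have h2 : |K l| ≤ ∑ l, |K l| :=
      Finset.single_le_sum (f := fun l => |K l|) (fun _ _ => abs_nonneg _) (Finset.mem_univ l)
    linarith

end Pool.Agent.W298.LG
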