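import Pool.Agent.W550.LG.StmV

set_option autoImplicit false

open Set MeasureTheory Topology

namespace Pool.Agent.W298.LG

open Pool.Agent.W550.LG

lemma smul_ext {E : Type*} [NormedAddCommGroup E] [NormedSpace ℝ E] (A B : ℝ) (χ : ℝ → ℝ)
    (f : ℝ → E) (hχ : ContDiff ℝ (⊤ : ℕ∞) χ) (hs : tsupport χ ⊆ Ioo A B)
    (hf : ContDiffOn ℝ (⊤ : ℕ∞) f (Ioo A B)) : ContDiff ℝ (⊤ : ℕ∞) (fun s => χ s • f s) := by
  rw [contDiff_iff_contDiffAt]
  intro x
  by_cases hx : x ∈ Ioo A B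
  · exact hχ.contDiffAt.smul (hf.contDiffAt (isOpen_Ioo.mem_nhds hx))
  · have hx2 : x ∉ tsupport χ := fun h => hx (hs h)
    have h1 : (fun s => χ s • f s) =ᶠ[𝓝 x] fun _ => (0 : E) := by
      have h2 : (tsupport χ)ᶜ ∈ 𝓝 x := (isClosed_tsupport χ).isOpen_compl.mem_nhds hx2
      filter_upwards [h2] with s hs2
      rw [image_eq_zero_of_notMem_tsupport hs2, zero_smul]
    exact contDiffAt_const.congr_of_eventuallyEq h1

theorem ext : S_EXT := by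
  intro hg q A B p0 p1 p2 p3 lam Lam beta hlam hbeta hLam hA hB hU
  have hp : p0 < p3 := hU.1.trans (hU.2.1.trans hU.2.2.1)
  set μ : ℝ := min (p0 - A) (B - p3) with hμ
  have hμ0 : 0 < μ := lt_min (by linarith) (by linarith)
  have hμ1 : μ ≤ p0 - A := min_le_left _ _
  have hμ2 : μ ≤ B - p3 := min_le_right _ _
  let χ : ContDiffBump ((p0 + p3) / 2) :=
    { rIn := (p3 - p0) / 2
      rOut := (p3 - p0) / 2 + μ / 2
      rIn_pos := by linarith
      rIn_lt_rOut := by linarith }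
  have hχ1 : ∀ s ∈ Icc p0 p3, χ s = 1 := by
    intro s hs
    apply χ.one_of_mem_closedBall
    rw [Metric.mem_closedBall, Real.dist_eq, abs_le]
    show -((p3 - p0) / 2) ≤ _ ∧ _ ≤ (p3 - p0) / 2
    constructor <;> linarith [hs.1, hs.2]
  have hχs : tsupport χ ⊆ Ioo A B := by
    rw [χ.tsupport_eq]
    intro s hs
    rw [Metric.mem_closedBall, Real.dist_eq, abs_le] at hs
    have h1 : -((p3 - p0) / 2 + μ / 2) ≤ s - (p0 + p3) / 2 := hs.1
    have h2 : s - (p0 + p3) / 2 ≤ (p3 - p0) / 2 + μ / 2 := hs.2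
    constructor <;> linarith
  have hχc : ContDiff ℝ (⊤ : ℕ∞) (χ : ℝ → ℝ) := χ.contDiff
  have hl' : ContDiff ℝ (⊤ : ℕ∞) (fun s => χ s • lam s) := smul_ext A B χ lam hχc hχs hlam
  have hb' : ContDiff ℝ (⊤ : ℕ∞) (fun s => χ s • beta s) := smul_ext A B χ beta hχc hχs hbeta
  let Lam' : ℝ → ℝ := fun s => Lam p0 + ∫ r in p0..s, χ r • lam r
  have hLam' : ∀ s, HasDerivAt Lam' (χ s • lam s) s := by
    intro s
    exact (hl'.continuous.integral_hasStrictDerivAt p0 s).hasDerivAt.const_add (Lam p0)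
  have hIcc : Icc p0 p3 ⊆ Ioo A B := fun s hs => ⟨lt_of_lt_of_le hA hs.1, lt_of_le_of_lt hs.2 hB⟩
  have hLeq : ∀ s ∈ Icc p0 p3, Lam' s = Lam s := by
    intro s hs
    have h := intervalIntegral.integral_eq_sub_of_hasDerivAt (a := p0) (b := s) (f := Lam)
      (f' := fun r => χ r • lam r) (by
        intro r hr
        rw [uIcc_of_le hs.1] at hr
        have hr2 : r ∈ Icc p0 p3 := ⟨hr.1, hr.2.trans hs.2⟩
        rw [hχ1 r hr2, one_smul]
        exact hLam r (hIcc hr2)) (hl'.continuous.intervalIntegrable _ _)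
    show Lam p0 + ∫ r in p0..s, χ r • lam r = Lam s
    rw [h]
    ring
  have hU' : UDU Lam' p0 p1 p2 p3 := by
    obtain ⟨h1, h2, h3, h4, h5, h6⟩ := hU
    refine ⟨h1, h2, h3, ?_, ?_, ?_⟩
    · rw [hLeq p0 ⟨le_rfl, hp.le⟩, hLeq p1 ⟨h1.le, (h2.trans h3).le⟩]
      exact h4
    · rw [hLeq p2 ⟨(h1.trans h2).le, h3.le⟩, hLeq p1 ⟨h1.le, (h2.trans h3).le⟩]
      exact h5
    · rw [hLeq p2 ⟨(h1.trans h2).le, h3.le⟩, hLeq p3 ⟨hp.le, le_rfl⟩]
      exact h6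
  obtain ⟨t, ht, s0, s1, h1, h2, h3, h4⟩ := hg q p0 p1 p2 p3 _ Lam' _ hl' hb' hLam' hU'
  refine ⟨t, ht, s0, s1, h1, h2, h3, ?_⟩
  intro c a psi hsol
  apply h4 c a psi
  have hin : ∀ s ∈ Icc s0 s1, s ∈ Icc p0 p3 := fun s hs => ⟨h1.trans hs.1, hs.2.trans h3⟩
  refine ⟨hsol.c0, hsol.a0, hsol.psi0, hsol.dc, ?_, ?_⟩
  · intro s hs
    simp only [hχ1 s (hin s hs), one_smul]
    exact hsol.da s hs
  · intro s hs
    simp only [hχ1 s (hin s hs), one_smul]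
    exact hsol.dpsi s hs

end Pool.Agent.W298.LG
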