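import Pool.Agent.W617.LG.StmIV

set_option autoImplicit false

open Matrix

namespace Pool.Agent.W298.LG

open Pool.Agent.W617.LG

/-- the determinant as a continuous multilinear map of the rows -/
noncomputable def detCM (N : ℕ) :
    ContinuousMultilinearMap ℝ (fun _ : Fin N => Fin N → ℝ) ℝ where
  toMultilinearMap := (Matrix.detRowAlternating (n := Fin N) (R := ℝ)).toMultilinearMap
  cont := by
    change Continuous (fun M : Matrix (Fin N) (Fin N) ℝ => M.det)
    exact Continuous.matrix_det continuous_id

theorem det_updateRow_sum {N : ℕ} (A B : Matrix (Fin N) (Fin N) ℝ) :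
    ∑ i, (A.updateRow i (B i)).det = (A.adjugate * B).trace := by
  have h1 : ∀ i, (A.updateRow i (B i)).det = ∑ k, A.adjugate k i * B i k := by
    intro i
    rw [← Matrix.cramer_transpose_apply, Matrix.cramer_eq_adjugate_mulVec,
      ← Matrix.adjugate_transpose]
    rfl
  simp_rw [h1]
  rw [Finset.sum_comm]
  rfl

theorem hasDerivAt_det {N : ℕ} (R : ℝ → Matrix (Fin N) (Fin N) ℝ) (R' : Matrix (Fin N) (Fin N) ℝ)
    (t : ℝ) (h : ∀ i k, HasDerivAt (fun y => R y i k) (R' i k) t) :
    HasDerivAt (fun y => (R y).det) (((R t).adjugate * R').trace) t := by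
  let Rf : ℝ → Fin N → Fin N → ℝ := fun y => R y
  let Rf' : Fin N → Fin N → ℝ := R'
  have h1 : HasDerivAt Rf Rf' t := by
    rw [hasDerivAt_pi]
    intro i
    rw [hasDerivAt_pi]
    intro k
    exact h i k
  have h2 := ((detCM N).hasFDerivAt (Rf t)).comp_hasDerivAt t h1
  have h3 : (detCM N).linearDeriv (Rf t) Rf' = ((R t).adjugate * R').trace := by
    rw [ContinuousMultilinearMap.linearDeriv_apply, ← det_updateRow_sum]
    rfl
  rw [h3] at h2
  exact h2

theorem liou : S_LIOU := by
  intro q A B hA hB s
  let b := (EuclideanSpace.basisFun (Fin (q + 2)) ℝ).toBasis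
  have hdet : ∀ r, (A r).det = (LinearMap.toMatrix b b (A r).toLinearMap).det := by
    intro r
    rw [LinearMap.det_toMatrix]
  have hder : ∀ r, HasDerivAt (fun y => (LinearMap.toMatrix b b (A y).toLinearMap).det) 0 r := by
    intro r
    have h1 := hasDerivAt_det (fun y => LinearMap.toMatrix b b (A y).toLinearMap)
      (LinearMap.toMatrix b b ((B r).comp (A r)).toLinearMap) r (by
        intro i k
        have h2 : ∀ f : E q →L[ℝ] E q, LinearMap.toMatrix b b f.toLinearMap i k = (f (b k)) i := by
          intro f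
          rw [LinearMap.toMatrix_apply]
          simp [b]
        simp only [h2]
        have h3 : HasDerivAt (fun y => (A y) (b k)) (((B r).comp (A r)) (b k)) r :=
          (hA r).clm_apply (hasDerivAt_const r (b k)) |>.congr_deriv (by simp)
        exact ((EuclideanSpace.proj (𝕜 := ℝ) i).hasFDerivAt.comp_hasDerivAt r h3))
    refine h1.congr_deriv ?_
    have h4 : LinearMap.toMatrix b b ((B r).comp (A r)).toLinearMap
        = LinearMap.toMatrix b b (B r).toLinearMap * LinearMap.toMatrix b b (A r).toLinearMap := by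
      rw [← LinearMap.toMatrix_comp]
      rfl
    rw [h4, Matrix.trace_mul_comm, Matrix.mul_assoc, Matrix.mul_adjugate, Matrix.mul_smul,
      Matrix.mul_one, Matrix.trace_smul]
    have h5 := hB r
    rw [LinearMap.trace_eq_matrix_trace ℝ b] at h5
    rw [h5, smul_zero]
  rw [hdet, hdet]
  exact is_const_of_deriv_eq_zero (fun r => (hder r).differentiableAt) (fun r => (hder r).deriv) s 0

end Pool.Agent.W298.LG
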