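import Pool.Agent.W550.LG.StmV

set_option autoImplicit false

open Set MeasureTheory

namespace Pool.Agent.W298.LG

open Pool.Agent.W550.LG

/-- The main estimate. -/
theorem key (q : ℕ) (lam : ℝ → ℝ) (beta b1 b2 : ℝ → EuclideanSpace ℝ (Fin q))
    (B l E D t s0 s1 : ℝ) (c a : ℝ → ℝ) (psi : ℝ → EuclideanSpace ℝ (Fin q))
    (hB : 1 ≤ B) (hl0 : 0 ≤ l) (hl : s1 - s0 ≤ l)
    (hE : E = 2 * (B + 2 * B * l + B ^ 4 * l)) (hD : D = B + 1 + 2 * B ^ 2 * E + 2 * B ^ 3)
    (ht1 : 1 ≤ t) (ht : 2 * l * B ^ 3 ≤ t)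
    (hlam : ∀ s ∈ Icc s0 s1, |lam s| ≤ B) (hbeta : ∀ s ∈ Icc s0 s1, ‖beta s‖ ≤ B)
    (hb1 : ∀ s ∈ Icc s0 s1, ‖b1 s‖ ≤ B) (hb2 : ∀ s ∈ Icc s0 s1, ‖b2 s‖ ≤ B)
    (hd1 : ∀ s, HasDerivAt beta (b1 s) s) (hd2 : ∀ s, HasDerivAt b1 (b2 s) s)
    (hS : Sol lam beta t s0 s1 c a psi) (s : ℝ) (hs : s ∈ Icc s0 s1) (M : ℝ)
    (hM : ∀ r ∈ Icc s0 s, |c r| ≤ M) :
    |a s| ≤ 8 * D * t * M ∧
      ‖psi s + (a s / t) • beta s - (c s / t) • b1 s‖ ≤ E * (1 + 8 * D) / t * M := by
  have htpos : 0 < t := by linarith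
  have hBpos : 0 < B := by linarith
  have hs0s : s0 ≤ s := hs.1
  have hsub : Icc s0 s ⊆ Icc s0 s1 := Icc_subset_Icc_right hs.2
  have hM1 : 1 ≤ M := by
    have := hM s0 ⟨le_refl _, hs0s⟩
    rwa [hS.c0, abs_one] at this
  have hE0 : 0 ≤ E := by rw [hE]; positivity
  have hD1 : 1 ≤ D := by
    rw [hD]
    have : 0 ≤ 2 * B ^ 2 * E + 2 * B ^ 3 := by positivity
    linarith
  set y : ℝ → EuclideanSpace ℝ (Fin q) := fun r =>
    psi r + (a r / t) • beta r - (c r / t) • b1 r with hy
  set y' : ℝ → EuclideanSpace ℝ (Fin q) := fun r =>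
    -((c r / t) • beta r) + (lam r * inner ℝ (beta r) (psi r) / t) • beta r
      - (c r / t) • b2 r with hy'
  have hdy : ∀ r ∈ Icc s0 s1, HasDerivAt y (y' r) r := by
    intro r hr
    have h1 := ((hS.dpsi r hr).add (((hS.da r hr).div_const t).smul (hd1 r))).sub
      (((hS.dc r hr).div_const t).smul (hd2 r))
    refine h1.congr_deriv ?_
    rw [hy']
    simp only
    have e1 : (t * lam r * a r - c r + lam r * inner ℝ (beta r) (psi r)) / t
        = lam r * a r - c r / t + lam r * inner ℝ (beta r) (psi r) / t := by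
      field_simp
    rw [e1]
    module
  -- maxima
  have hac : ContinuousOn a (Icc s0 s) := fun r hr =>
    (hS.da r (hsub hr)).continuousAt.continuousWithinAt
  have hyc : ContinuousOn y (Icc s0 s) := fun r hr =>
    (hdy r (hsub hr)).continuousAt.continuousWithinAt
  obtain ⟨rA, hrA, hA⟩ := isCompact_Icc.exists_isMaxOn ⟨s0, le_refl _, hs0s⟩ hac.abs
  obtain ⟨rY, hrY, hY⟩ := isCompact_Icc.exists_isMaxOn ⟨s0, le_refl _, hs0s⟩ hyc.norm
  set A := |a rA| with hAdef
  set Y := ‖y rY‖ with hYdef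
  have hA' : ∀ r ∈ Icc s0 s, |a r| ≤ A := fun r hr => hA hr
  have hY' : ∀ r ∈ Icc s0 s, ‖y r‖ ≤ Y := fun r hr => hY hr
  have hA0 : 0 ≤ A := abs_nonneg _
  have hY0 : 0 ≤ Y := norm_nonneg _
  -- the bound for psi
  have hpsi : ∀ r ∈ Icc s0 s, ‖psi r‖ ≤ Y + A * B / t + M * B / t := by
    intro r hr
    have h1 : psi r = y r - (a r / t) • beta r + (c r / t) • b1 r := by
      rw [hy]; simp only; module
    rw [h1]
    have h2 : ‖(a r / t) • beta r‖ ≤ A * B / t := by
      rw [norm_smul, Real.norm_eq_abs, abs_div, abs_of_pos htpos, div_mul_eq_mul_div]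
      exact div_le_div_of_nonneg_right
        (mul_le_mul (hA' r hr) (hbeta r (hsub hr)) (norm_nonneg _) hA0) htpos.le
    have h3 : ‖(c r / t) • b1 r‖ ≤ M * B / t := by
      rw [norm_smul, Real.norm_eq_abs, abs_div, abs_of_pos htpos, div_mul_eq_mul_div]
      exact div_le_div_of_nonneg_right
        (mul_le_mul (hM r hr) (hb1 r (hsub hr)) (norm_nonneg _) (by linarith)) htpos.le
    calc ‖y r - (a r / t) • beta r + (c r / t) • b1 r‖
        ≤ ‖y r - (a r / t) • beta r‖ + ‖(c r / t) • b1 r‖ := norm_add_le _ _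
      _ ≤ ‖y r‖ + ‖(a r / t) • beta r‖ + ‖(c r / t) • b1 r‖ := by
          linarith [norm_sub_le (y r) ((a r / t) • beta r)]
      _ ≤ Y + A * B / t + M * B / t := by
          linarith [hY' r hr]
  set P := Y + A * B / t + M * B / t with hPdef
  have hP0 : 0 ≤ P := by positivity
  have hinner : ∀ r ∈ Icc s0 s, |lam r * inner ℝ (beta r) (psi r)| ≤ B ^ 2 * P := by
    intro r hr
    rw [abs_mul]
    have h1 : |inner ℝ (beta r) (psi r)| ≤ B * P :=
      (abs_real_inner_le_norm _ _).trans
        (mul_le_mul (hbeta r (hsub hr)) (hpsi r hr) (norm_nonneg _) hBpos.le)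
    calc |lam r| * |inner ℝ (beta r) (psi r)| ≤ B * (B * P) :=
          mul_le_mul (hlam r (hsub hr)) h1 (abs_nonneg _) hBpos.le
      _ = B ^ 2 * P := by ring
  have hyb : ∀ r ∈ Icc s0 s, ‖y' r‖ ≤ 2 * B * M / t + B ^ 3 * P / t := by
    intro r hr
    have h1 : ‖(c r / t) • beta r‖ ≤ M * B / t := by
      rw [norm_smul, Real.norm_eq_abs, abs_div, abs_of_pos htpos, div_mul_eq_mul_div]
      exact div_le_div_of_nonneg_right
        (mul_le_mul (hM r hr) (hbeta r (hsub hr)) (norm_nonneg _) (by linarith)) htpos.le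
    have h2 : ‖(c r / t) • b2 r‖ ≤ M * B / t := by
      rw [norm_smul, Real.norm_eq_abs, abs_div, abs_of_pos htpos, div_mul_eq_mul_div]
      exact div_le_div_of_nonneg_right
        (mul_le_mul (hM r hr) (hb2 r (hsub hr)) (norm_nonneg _) (by linarith)) htpos.le
    have h3 : ‖(lam r * inner ℝ (beta r) (psi r) / t) • beta r‖ ≤ B ^ 2 * P * B / t := by
      rw [norm_smul, Real.norm_eq_abs, abs_div, abs_of_pos htpos, div_mul_eq_mul_div]
      exact div_le_div_of_nonneg_right
        (mul_le_mul (hinner r hr) (hbeta r (hsub hr)) (norm_nonneg _) (by positivity)) htpos.le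
    rw [hy']
    simp only
    calc ‖-((c r / t) • beta r) + (lam r * inner ℝ (beta r) (psi r) / t) • beta r
          - (c r / t) • b2 r‖
        ≤ ‖-((c r / t) • beta r) + (lam r * inner ℝ (beta r) (psi r) / t) • beta r‖
          + ‖(c r / t) • b2 r‖ := norm_sub_le _ _
      _ ≤ ‖-((c r / t) • beta r)‖ + ‖(lam r * inner ℝ (beta r) (psi r) / t) • beta r‖
          + ‖(c r / t) • b2 r‖ := by
          linarith [norm_add_le (-((c r / t) • beta r))
            ((lam r * inner ℝ (beta r) (psi r) / t) • beta r)]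
      _ ≤ M * B / t + B ^ 2 * P * B / t + M * B / t := by
          rw [norm_neg]
          linarith
      _ = 2 * B * M / t + B ^ 3 * P / t := by ring
  have hY1 : Y ≤ B * M / t + (2 * B * M / t + B ^ 3 * P / t) * l := by
    have h1 := norm_image_sub_le_of_norm_deriv_le_segment'
      (f := y) (f' := y') (a := s0) (b := s)
      (fun r hr => (hdy r (hsub hr)).hasDerivWithinAt)
      (fun r hr => hyb r ⟨hr.1, hr.2.le⟩) rY hrY
    have h2 : ‖y s0‖ ≤ B * M / t := by
      rw [hy]
      simp only [hS.psi0, hS.a0, hS.c0, zero_div, zero_smul, add_zero, zero_sub, norm_neg]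
      rw [norm_smul, Real.norm_eq_abs, abs_div, abs_one, abs_of_pos htpos, div_mul_eq_mul_div,
        one_mul]
      apply div_le_div_of_nonneg_right _ htpos.le
      have := hb1 s0 ⟨le_refl _, by linarith [hs.2]⟩
      nlinarith
    have h3 : ‖y rY‖ ≤ ‖y rY - y s0‖ + ‖y s0‖ := by
      have := norm_add_le (y rY - y s0) (y s0)
      rwa [sub_add_cancel] at this
    have h4 : (2 * B * M / t + B ^ 3 * P / t) * (rY - s0)
        ≤ (2 * B * M / t + B ^ 3 * P / t) * l := by
      apply mul_le_mul_of_nonneg_left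
      · linarith [hrY.2, hs.2]
      · positivity
    linarith
  have hY2 : Y ≤ E / t * (M + A / t) := by
    -- multiply by t
    have h1 : t * Y ≤ B * M + (2 * B * M + B ^ 3 * P) * l := by
      have := mul_le_mul_of_nonneg_left hY1 htpos.le
      have e : t * (B * M / t + (2 * B * M / t + B ^ 3 * P / t) * l)
          = B * M + (2 * B * M + B ^ 3 * P) * l := by
        field_simp
      rw [e] at this
      exact this
    have h2 : B ^ 3 * l * Y ≤ t / 2 * Y := by
      apply mul_le_mul_of_nonneg_right _ hY0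
      linarith
    have h3 : B ^ 3 * P * l = B ^ 3 * l * Y + B ^ 4 * l * (A / t) + B ^ 4 * l * (M / t) := by
      rw [hPdef]; ring
    have h4 : B ^ 4 * l * (M / t) ≤ B ^ 4 * l * M := by
      apply mul_le_mul_of_nonneg_left _ (by positivity)
      exact div_le_self (by linarith) ht1
    have h5 : t * Y ≤ E * (M + A / t) := by
      have h6 : 0 ≤ (B + 2 * B * l) * (A / t) := by positivity
      have h7 : t * Y ≤ 2 * (B * M + 2 * B * M * l + B ^ 4 * l * (A / t) + B ^ 4 * l * M) := by
        nlinarith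
      rw [hE]
      nlinarith
    calc Y = (t * Y) / t := by field_simp
      _ ≤ (E * (M + A / t)) / t := div_le_div_of_nonneg_right h5 htpos.le
      _ = E / t * (M + A / t) := by ring
  -- the bound for a
  have hAfin : A ≤ 8 * D * t * M := by
    by_contra hcon
    push Not at hcon
    have hDt : 1 ≤ D * t := by nlinarith
    have hAM : M < A := by nlinarith
    have hApos : 0 < A := by linarith
    have hPA : P ≤ (2 * E + 2 * B) * A := by
      have h1 : E / t * (M + A / t) ≤ E * (2 * A) := by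
        have h2 : E / t ≤ E := div_le_self hE0 ht1
        have h3 : A / t ≤ A := div_le_self hA0 ht1
        apply mul_le_mul h2 (by linarith) (by positivity) hE0
      have h2 : A * B / t ≤ A * B := div_le_self (by positivity) ht1
      have h3 : M * B / t ≤ M * B := div_le_self (by positivity) ht1
      have h4 : M * B ≤ A * B := mul_le_mul_of_nonneg_right hAM.le hBpos.le
      rw [hPdef]
      nlinarith
    have hda : ∀ r ∈ Icc s0 s,
        ‖t * lam r * a r - c r + lam r * inner ℝ (beta r) (psi r)‖ ≤ D * t * A := by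
      intro r hr
      rw [Real.norm_eq_abs]
      have h1 : |t * lam r * a r| ≤ t * B * A := by
        rw [abs_mul, abs_mul, abs_of_pos htpos]
        apply mul_le_mul _ (hA' r hr) (abs_nonneg _) (by positivity)
        exact mul_le_mul_of_nonneg_left (hlam r (hsub hr)) htpos.le
      have h2 := hM r hr
      have h3 := hinner r hr
      have h4 : B ^ 2 * P ≤ B ^ 2 * ((2 * E + 2 * B) * A) :=
        mul_le_mul_of_nonneg_left hPA (by positivity)
      have h5 : |t * lam r * a r - c r + lam r * inner ℝ (beta r) (psi r)|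
          ≤ |t * lam r * a r| + |c r| + |lam r * inner ℝ (beta r) (psi r)| := by
        refine (abs_add_le _ _).trans ?_
        have := abs_sub (t * lam r * a r) (c r)
        linarith
      have h6 : A + B ^ 2 * ((2 * E + 2 * B) * A) ≤ t * (A + B ^ 2 * ((2 * E + 2 * B) * A)) := by
        have : 0 ≤ A + B ^ 2 * ((2 * E + 2 * B) * A) := by positivity
        nlinarith
      calc |t * lam r * a r - c r + lam r * inner ℝ (beta r) (psi r)|
          ≤ t * B * A + A + B ^ 2 * ((2 * E + 2 * B) * A) := by linarith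
        _ ≤ t * B * A + t * (A + B ^ 2 * ((2 * E + 2 * B) * A)) := by linarith
        _ = D * t * A := by rw [hD]; ring
    have hlip : ∀ r ∈ Icc s0 rA, |a rA - a r| ≤ D * t * A * (rA - r) := by
      intro r hr
      have hsub2 : Icc r rA ⊆ Icc s0 s := Icc_subset_Icc hr.1 hrA.2
      have h1 := norm_image_sub_le_of_norm_deriv_le_segment'
        (f := a) (f' := fun r => t * lam r * a r - c r + lam r * inner ℝ (beta r) (psi r))
        (a := r) (b := rA) (C := D * t * A)
        (fun u hu => (hS.da u (hsub (hsub2 hu))).hasDerivWithinAt)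
        (fun u hu => hda u (hsub2 ⟨hu.1, hu.2.le⟩)) rA ⟨hr.2, le_refl _⟩
      rwa [Real.norm_eq_abs] at h1
    set x := 1 / (2 * (D * t)) with hx
    have hDtpos : 0 < D * t := by linarith
    have hxpos : 0 < x := by positivity
    have hDx : D * t * A * x = A / 2 := by
      rw [hx]; field_simp
    have hlen : x < rA - s0 := by
      have h1 := hlip s0 ⟨le_refl _, hrA.1⟩
      rw [hS.a0, sub_zero] at h1
      by_contra hcon2
      push Not at hcon2
      have h2 : D * t * A * (rA - s0) ≤ D * t * A * x :=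
        mul_le_mul_of_nonneg_left hcon2 (by positivity)
      rw [hDx] at h2
      linarith
    have hsub3 : Icc (rA - x) rA ⊆ Icc s0 s := Icc_subset_Icc (by linarith) hrA.2
    obtain ⟨ξ, hξ, hξe⟩ := exists_hasDerivAt_eq_slope c a (by linarith : rA - x < rA)
      (fun r hr => (hS.dc r (hsub (hsub3 hr))).continuousAt.continuousWithinAt)
      (fun r hr => hS.dc r (hsub (hsub3 ⟨hr.1.le, hr.2.le⟩)))
    have hξ' : ξ ∈ Icc s0 rA := ⟨by linarith [hξ.1], hξ.2.le⟩
    have h1 := hlip ξ hξ'
    have h2 : D * t * A * (rA - ξ) ≤ A / 2 := by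
      rw [← hDx]
      apply mul_le_mul_of_nonneg_left _ (by positivity)
      linarith [hξ.1]
    have h3 : A / 2 ≤ |a ξ| := by
      have h4 : |a rA| ≤ |a rA - a ξ| + |a ξ| := by
        have := abs_add_le (a rA - a ξ) (a ξ)
        rwa [sub_add_cancel] at this
      linarith
    have h5 : |a ξ| ≤ 2 * M / x := by
      rw [hξe, sub_sub_cancel, abs_div, abs_of_pos hxpos]
      apply div_le_div_of_nonneg_right _ hxpos.le
      have h6 := hM rA hrA
      have h7 := hM (rA - x) (hsub3 ⟨le_refl _, by linarith⟩)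
      have := abs_sub (c rA) (c (rA - x))
      linarith
    have h6 : 2 * M / x = 4 * D * t * M := by
      rw [hx]; field_simp; ring
    rw [h6] at h5
    linarith
  constructor
  · exact (hA' s ⟨hs0s, le_refl _⟩).trans hAfin
  · refine (hY' s ⟨hs0s, le_refl _⟩).trans (hY2.trans ?_)
    have h1 : A / t ≤ 8 * D * M := by
      rw [div_le_iff₀ htpos]
      linarith
    calc E / t * (M + A / t) ≤ E / t * (M + 8 * D * M) :=
          mul_le_mul_of_nonneg_left (by linarith) (by positivity)
      _ = E * (1 + 8 * D) / t * M := by ring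

theorem red : S_RED := by
  intro q p0 p3 lam beta hlam hbeta hp
  have hbeta' : ContDiff ℝ (⊤ : ℕ∞) (deriv beta) :=
    (contDiff_infty_iff_deriv.1 hbeta).2
  have hd1 : ∀ s, HasDerivAt beta (deriv beta s) s := fun s =>
    (hbeta.differentiable (by simp) s).hasDerivAt
  have hd2 : ∀ s, HasDerivAt (deriv beta) (deriv (deriv beta) s) s := fun s =>
    (hbeta'.differentiable (by simp) s).hasDerivAt
  have hc2 : Continuous (deriv (deriv beta)) := by
    have : ContDiff ℝ (⊤ : ℕ∞) (deriv (deriv beta)) :=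
      (contDiff_infty_iff_deriv.1 hbeta').2
    exact this.continuous
  have hcl : Continuous lam := hlam.continuous
  have hcb : Continuous beta := hbeta.continuous
  have hc1 : Continuous (deriv beta) := hbeta'.continuous
  obtain ⟨B, hB⟩ := isCompact_Icc.exists_bound_of_continuousOn (s := Icc p0 p3)
    (f := fun s => |lam s| + ‖beta s‖ + ‖deriv beta s‖ + ‖deriv (deriv beta) s‖ + 1)
    (by fun_prop)
  have hBs : ∀ s ∈ Icc p0 p3, |lam s| ≤ B ∧ ‖beta s‖ ≤ B ∧ ‖deriv beta s‖ ≤ B ∧
      ‖deriv (deriv beta) s‖ ≤ B ∧ 1 ≤ B := by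
    intro s hs
    have h := hB s hs
    rw [Real.norm_eq_abs] at h
    have h2 := (le_abs_self _).trans h
    have n1 := abs_nonneg (lam s)
    have n2 := norm_nonneg (beta s)
    have n3 := norm_nonneg (deriv beta s)
    have n4 := norm_nonneg (deriv (deriv beta) s)
    refine ⟨by linarith, by linarith, by linarith, by linarith, by linarith⟩
  have hB1 : 1 ≤ B := (hBs p0 ⟨le_refl _, hp.le⟩).2.2.2.2
  have hB0 : 0 < B := by linarith
  set l := p3 - p0 with hl
  have hl0 : 0 ≤ l := by linarith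
  set E := 2 * (B + 2 * B * l + B ^ 4 * l) with hE
  have hE0 : 0 ≤ E := by positivity
  set D := B + 1 + 2 * B ^ 2 * E + 2 * B ^ 3 with hD
  have hD0 : 0 ≤ D := by positivity
  set C := 8 * D + (B * (E * (1 + 8 * D)) + B ^ 2) + 2 * l * B ^ 3 + 1 with hC
  have hC1 : 1 ≤ C := by
    have : 0 ≤ 8 * D + (B * (E * (1 + 8 * D)) + B ^ 2) + 2 * l * B ^ 3 := by positivity
    linarith
  refine ⟨C, hC1, ?_⟩
  intro t ht s0 s1 hs0 hs01 hs1 c a psi hS
  have ht1 : 1 ≤ t := hC1.trans ht
  have htpos : 0 < t := by linarith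
  have ht2 : 2 * l * B ^ 3 ≤ t := by
    have : 0 ≤ 8 * D + (B * (E * (1 + 8 * D)) + B ^ 2) := by positivity
    linarith
  have hsub : Icc s0 s1 ⊆ Icc p0 p3 := Icc_subset_Icc hs0 hs1
  have hkey := fun s hs M hM => key q lam beta (deriv beta) (deriv (deriv beta)) B l E D t s0 s1
    c a psi hB1 hl0 (by linarith) hE hD ht1 ht2 (fun s hs => (hBs s (hsub hs)).1)
    (fun s hs => (hBs s (hsub hs)).2.1) (fun s hs => (hBs s (hsub hs)).2.2.1)
    (fun s hs => (hBs s (hsub hs)).2.2.2.1) hd1 hd2 hS s hs M hM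
  set th0 : ℝ → ℝ := fun s =>
    lam s * (inner ℝ (beta s) (psi s) + a s / t * ‖beta s‖ ^ 2) with hth0
  have hth0c : ContinuousOn th0 (Icc s0 s1) := by
    intro s hs
    have h1 : ContinuousAt psi s := (hS.dpsi s hs).continuousAt
    have h2 : ContinuousAt a s := (hS.da s hs).continuousAt
    have h3 : ContinuousAt th0 s := by
      refine hcl.continuousAt.mul ?_
      refine (hcb.continuousAt.inner h1).add ?_
      exact (h2.div_const t).mul (hcb.continuousAt.norm.pow 2)
    exact h3.continuousWithinAt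
  have hclamp : ∀ s ∈ Icc s0 s1, max s0 (min s s1) = s := by
    intro s hs
    rw [min_eq_left hs.2, max_eq_right hs.1]
  refine ⟨fun s => 1 - ‖beta s‖ ^ 2 / t ^ 2, fun s => th0 (max s0 (min s s1)), ?_⟩
  refine ⟨hS.c0, hS.a0, hS.dc, ?_, ?_, ?_, ?_, ?_, ?_, ?_⟩
  · intro s hs
    refine (hS.da s hs).congr_deriv ?_
    rw [hclamp s hs, hth0]
    simp only
    field_simp
    ring
  · fun_prop
  · apply hth0c.comp_continuous (by fun_prop)
    intro s
    exact ⟨le_max_left _ _, max_le hs01.le (min_le_right _ _)⟩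
  · intro s
    have : 0 ≤ ‖beta s‖ ^ 2 / t ^ 2 := by positivity
    linarith
  · intro s hs
    have h1 : ‖beta s‖ ^ 2 ≤ C := by
      have h2 := (hBs s (hsub hs)).2.1
      have h3 : ‖beta s‖ ^ 2 ≤ B ^ 2 := pow_le_pow_left₀ (norm_nonneg _) h2 2
      have : 0 ≤ 8 * D + (B * (E * (1 + 8 * D))) + 2 * l * B ^ 3 := by positivity
      linarith
    have h2 : ‖beta s‖ ^ 2 / t ^ 2 ≤ C / t ^ 2 := div_le_div_of_nonneg_right h1 (by positivity)
    linarith
  · intro s hs M hM
    rw [hclamp s hs]
    have hk := (hkey s hs M hM).2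
    set y := psi s + (a s / t) • beta s - (c s / t) • deriv beta s with hy
    have e1 : th0 s = lam s * (inner ℝ (beta s) y + c s / t * inner ℝ (beta s) (deriv beta s)) := by
      rw [hth0, hy]
      simp only
      rw [inner_sub_right, inner_add_right, inner_smul_right, inner_smul_right,
        real_inner_self_eq_norm_sq]
      ring
    have hMn : |c s| ≤ M := hM s ⟨hs.1, le_refl _⟩
    have hM0 : 0 ≤ M := (abs_nonneg _).trans hMn
    have h1 : |inner ℝ (beta s) y| ≤ B * (E * (1 + 8 * D) / t * M) :=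
      (abs_real_inner_le_norm _ _).trans
        (mul_le_mul (hBs s (hsub hs)).2.1 hk (norm_nonneg _) hB0.le)
    have h2 : |inner ℝ (beta s) (deriv beta s)| ≤ B * B :=
      (abs_real_inner_le_norm _ _).trans
        (mul_le_mul (hBs s (hsub hs)).2.1 (hBs s (hsub hs)).2.2.1 (norm_nonneg _) hB0.le)
    have h3 : |c s / t * inner ℝ (beta s) (deriv beta s)| ≤ M / t * (B * B) := by
      rw [abs_mul, abs_div, abs_of_pos htpos]
      exact mul_le_mul (div_le_div_of_nonneg_right hMn htpos.le) h2 (abs_nonneg _)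
        (by positivity)
    rw [e1, abs_mul]
    have h4 : |inner ℝ (beta s) y + c s / t * inner ℝ (beta s) (deriv beta s)| ≤ C / t * M := by
      refine (abs_add_le _ _).trans ?_
      have h5 : (0:ℝ) ≤ (8 * D + 2 * l * B ^ 3 + 1) / t * M := by positivity
      calc |inner ℝ (beta s) y| + |c s / t * inner ℝ (beta s) (deriv beta s)|
          ≤ B * (E * (1 + 8 * D) / t * M) + M / t * (B * B) := add_le_add h1 h3
        _ ≤ B * (E * (1 + 8 * D) / t * M) + M / t * (B * B)
            + (8 * D + 2 * l * B ^ 3 + 1) / t * M := by linarith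
        _ = C / t * M := by rw [hC]; ring
    calc |lam s| * |inner ℝ (beta s) y + c s / t * inner ℝ (beta s) (deriv beta s)|
        ≤ |lam s| * (C / t * M) := mul_le_mul_of_nonneg_left h4 (abs_nonneg _)
      _ = C / t * |lam s| * M := by ring
  · intro s hs M hM
    have hk := (hkey s hs M hM).1
    have hMn : |c s| ≤ M := hM s ⟨hs.1, le_refl _⟩
    have hM0 : 0 ≤ M := (abs_nonneg _).trans hMn
    refine hk.trans ?_
    have h5 : 8 * D ≤ C := by
      have : 0 ≤ (B * (E * (1 + 8 * D)) + B ^ 2) + 2 * l * B ^ 3 := by positivity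
      linarith
    apply mul_le_mul_of_nonneg_right _ hM0
    exact mul_le_mul_of_nonneg_right h5 htpos.le

end Pool.Agent.W298.LG
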