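import Pool.Agent.W550.LG.StmV

set_option autoImplicit false

open Set MeasureTheory

namespace Pool.Agent.W298.LG

open Pool.Agent.W550.LG

theorem rep : S_REP := by
  intro l L c a g al om hle hl hL hg hc ha ha0 hc0
  have hLc : Continuous L := continuous_iff_continuousAt.mpr fun s => (hL s).continuousAt
  have hA : ∀ s ∈ Icc al om, a s = - ∫ r in al..s, Real.exp (L s - L r) * g r := by
    intro s hs
    have hsub : uIcc al s ⊆ Icc al om := by
      rw [uIcc_of_le hs.1]
      exact Icc_subset_Icc_right hs.2
    have hder : ∀ r ∈ uIcc al s, HasDerivAt (fun r => Real.exp (-L r) * a r)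
        (-(Real.exp (-L r) * g r)) r := by
      intro r hr
      have h1 := (hL r).neg.exp
      have h2 := h1.mul (ha r (hsub hr))
      refine h2.congr_deriv ?_
      simp only [Pi.neg_apply]
      ring
    have hcont : ContinuousOn (fun r => -(Real.exp (-L r) * g r)) (uIcc al s) := by
      apply ContinuousOn.neg
      exact (Real.continuous_exp.comp hLc.neg).continuousOn.mul (hg.mono hsub)
    have h := intervalIntegral.integral_eq_sub_of_hasDerivAt hder hcont.intervalIntegrable
    rw [ha0, mul_zero, sub_zero, intervalIntegral.integral_neg] at h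
    have h3 : a s = Real.exp (L s) * (Real.exp (-L s) * a s) := by
      rw [← mul_assoc, ← Real.exp_add, add_neg_cancel, Real.exp_zero, one_mul]
    rw [h3, ← h, mul_neg, ← intervalIntegral.integral_const_mul]
    congr 1
    apply intervalIntegral.integral_congr
    intro r _
    simp only
    rw [sub_eq_add_neg, Real.exp_add]
    ring
  intro s hs
  refine ⟨?_, hA s hs⟩
  have hsub : uIcc al s ⊆ Icc al om := by
    rw [uIcc_of_le hs.1]
    exact Icc_subset_Icc_right hs.2
  have hcont : ContinuousOn a (uIcc al s) := fun r hr =>
    (ha r (hsub hr)).continuousAt.continuousWithinAt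
  have h := intervalIntegral.integral_eq_sub_of_hasDerivAt (fun r hr => hc r (hsub hr))
    hcont.intervalIntegrable
  rw [hc0] at h
  have h2 : ∫ r in al..s, a r = - T L al g s := by
    unfold T
    rw [← intervalIntegral.integral_neg]
    apply intervalIntegral.integral_congr
    intro r hr
    exact hA r (hsub hr)
  rw [h2] at h
  linarith

end Pool.Agent.W298.LG
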