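import Pool.Agent.W617.LG.StmIV

set_option autoImplicit false

open Topology Filter Set
open scoped ContDiff

namespace Pool.Agent.W298.LG

open Pool.Agent.W617.LG

theorem smo : S_SMO := by
  intro q X U hU hX a b γ hγ
  have hmap : MapsTo γ (Ioo a b) U := fun t ht => (hγ t ht).1
  have hn : ∀ n : ℕ, ContDiffOn ℝ (n : ℕ∞) γ (Ioo a b) := by
    intro n
    induction n with
    | zero =>
      have : ContDiffOn ℝ 0 γ (Ioo a b) :=
        contDiffOn_zero.2 fun t ht => (hγ t ht).2.continuousAt.continuousWithinAt
      simpa using this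
    | succ n ih =>
      have h : ContDiffOn ℝ ((n : ℕ∞) + 1) γ (Ioo a b) := by
        rw [contDiffOn_succ_iff_deriv_of_isOpen isOpen_Ioo]
        refine ⟨fun t ht => (hγ t ht).2.differentiableAt.differentiableWithinAt, by simp, ?_⟩
        have h1 : ContDiffOn ℝ (n : ℕ∞) (X ∘ γ) (Ioo a b) :=
          (hX.of_le (by exact_mod_cast le_top)).comp ih hmap
        exact h1.congr fun t ht => (hγ t ht).2.deriv
      exact_mod_cast h
  exact contDiffOn_infty.2 fun n => by exact_mod_cast hn n

end Pool.Agent.W298.LG
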