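import Pool.Agent.W617.LG.StmIV

set_option autoImplicit false
set_option maxSynthPendingDepth 5

open Topology Filter Set
open scoped ContDiff InnerProductSpace

namespace Pool.Agent.W298.LG

open Pool.Agent.W617.LG

variable {q : ℕ} {C : TF q} {τ : E q → ℝ}

theorem cd_C (h : LW q C τ) (z : FB q) (hz : z.1 ≠ 0) :
    ContDiffAt ℝ ∞ (fun z : FB q => C z.1) z :=
  ContDiffAt.comp z (h.smooth z.1 hz) contDiffAt_fst

theorem cd_dC (h : LW q C τ) (z : FB q) (hz : z.1 ≠ 0) :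
    ContDiffAt ℝ ∞ (fun z : FB q => fderiv ℝ C z.1) z :=
  ContDiffAt.comp z ((h.smooth z.1 hz).fderiv_right (m := ∞) (by simp)) contDiffAt_fst

theorem cd_e (i : Fin (q + 1)) (z : FB q) : ContDiffAt ℝ ∞ (fun z : FB q => z.2 i) z :=
  (contDiffAt_pi.1 (contDiffAt_snd (𝕜 := ℝ) (n := ∞) (p := z)
    (E := E q) (F := Fin (q + 1) → E q))) i

theorem cd_lam (h : LW q C τ) (i : Fin (q + 1)) (z : FB q) (hz : z.1 ≠ 0) :
    ContDiffAt ℝ ∞ (fun z : FB q => lam C z.1 (z.2 i)) z := by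
  unfold lam
  exact (((cd_C h z hz).clm_apply (cd_e i z)).clm_apply (cd_e i z)).inner ℝ (cd_e i z)

theorem cd_dlam (h : LW q C τ) (j i : Fin (q + 1)) (z : FB q) (hz : z.1 ≠ 0) :
    ContDiffAt ℝ ∞ (fun z : FB q => dlam C z.1 (z.2 j) (z.2 i)) z := by
  unfold dlam
  exact ((((cd_dC h z hz).clm_apply (cd_e j z)).clm_apply (cd_e i z)).clm_apply
    (cd_e i z)).inner ℝ (cd_e i z)

theorem om_open (h : LW q C τ) : IsOpen (Om C) := by
  rw [isOpen_iff_mem_nhds]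
  intro z hz
  have h1 : ∀ᶠ w : FB q in 𝓝 z, w.1 ≠ 0 :=
    (continuous_fst.continuousAt).eventually_ne hz.1
  have h2 : ∀ᶠ w : FB q in 𝓝 z, ∀ l : Fin q, 0 < lam C w.1 (w.2 l.succ) := by
    rw [eventually_all]
    intro l
    exact (cd_lam h l.succ z hz.1).continuousAt.eventually (lt_mem_nhds (hz.2 l))
  filter_upwards [h1, h2] with w a b using ⟨a, b⟩

theorem cd_bb (h : LW q C τ) (l : Fin q) (z : FB q) (hz : z ∈ Om C) :
    ContDiffAt ℝ ∞ (fun z : FB q => bb C z.1 z.2 l) z := by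
  unfold bb
  exact (cd_dlam h 0 l.succ z hz.1).div ((cd_lam h l.succ z hz.1).pow 2)
    (pow_ne_zero 2 (hz.2 l).ne')

theorem cd_V1 (h : LW q C τ) (z : FB q) (hz : z ∈ Om C) : ContDiffAt ℝ ∞ (V1 C) z := by
  unfold V1
  refine (cd_e 0 z).prodMk ?_
  rw [contDiffAt_pi]
  intro i
  refine Fin.cases ?_ (fun l => ?_) i
  · simp only [v2, Fin.cons_zero]
    refine ContDiffAt.add ?_ ?_
    · have h1 : ContDiffAt ℝ ∞ (fun z : FB q => ‖z.1‖ ^ 2) z := ContDiffAt.norm_sq ℝ contDiffAt_fst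
      exact (h1.inv (pow_ne_zero 2 (norm_ne_zero_iff.2 hz.1))).neg.smul contDiffAt_fst
    · refine (cd_lam h 0 z hz.1).smul (ContDiffAt.sum fun l _ => ?_)
      exact (cd_bb h l z hz).smul (cd_e l.succ z)
  · simp only [v2, Fin.cons_succ]
    exact (((cd_lam h 0 z hz.1).mul (cd_bb h l z hz)).neg).smul (cd_e 0 z)

theorem cd_PP (h : LW q C τ) (z : FB q) (hz : z.1 ≠ 0) :
    ContDiffAt ℝ ∞ (fun z : FB q => PP C z.1 z.2) z := by
  unfold PP
  exact contDiffAt_prod fun l _ => cd_lam h l.succ z hz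

theorem smx : S_SMX := by
  intro q C τ h
  refine ⟨om_open h, fun z hz => (cd_V1 h z hz).contDiffWithinAt, fun z hz => ?_⟩
  exact ((cd_PP h z hz.1).smul (cd_V1 h z hz)).contDiffWithinAt

end Pool.Agent.W298.LG
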