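import Pool.Agent.W550.LG.StmV

set_option autoImplicit false

open Set MeasureTheory

namespace Pool.Agent.W298.LG

open Pool.Agent.W550.LG

/-- lower bound of an integral by a subinterval -/
lemma int_lower (f : ℝ → ℝ) (α u v β m : ℝ) (hf : Continuous f) (h1 : α ≤ u) (h2 : u ≤ v)
    (h3 : v ≤ β) (h0 : ∀ s ∈ Icc α β, 0 ≤ f s) (hm : ∀ s ∈ Icc u v, m ≤ f s) :
    (v - u) * m ≤ ∫ s in α..β, f s := by
  have e1 : ∫ s in α..β, f s = (∫ s in α..u, f s) + (∫ s in u..v, f s) + ∫ s in v..β, f s := by
    rw [intervalIntegral.integral_add_adjacent_intervals (hf.intervalIntegrable _ _)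
      (hf.intervalIntegrable _ _), intervalIntegral.integral_add_adjacent_intervals
      (hf.intervalIntegrable _ _) (hf.intervalIntegrable _ _)]
  have e2 : 0 ≤ ∫ s in α..u, f s := intervalIntegral.integral_nonneg h1
    (fun s hs => h0 s ⟨hs.1, hs.2.trans (h2.trans h3)⟩)
  have e3 : 0 ≤ ∫ s in v..β, f s := intervalIntegral.integral_nonneg h3
    (fun s hs => h0 s ⟨(h1.trans h2).trans hs.1, hs.2⟩)
  have e4 : ∫ _ in u..v, m ≤ ∫ s in u..v, f s :=
    intervalIntegral.integral_mono_on h2 (continuous_const.intervalIntegrable _ _)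
      (hf.intervalIntegrable _ _) hm
  rw [intervalIntegral.integral_const, smul_eq_mul] at e4
  linarith

/-- monotonicity in the interval -/
lemma int_sub (f : ℝ → ℝ) (α u β : ℝ) (hf : Continuous f) (h1 : α ≤ u)
    (h0 : ∀ s ∈ Icc α u, 0 ≤ f s) : ∫ s in u..β, f s ≤ ∫ s in α..β, f s := by
  have e1 : ∫ s in α..β, f s = (∫ s in α..u, f s) + (∫ s in u..β, f s) := by
    rw [intervalIntegral.integral_add_adjacent_intervals (hf.intervalIntegrable _ _)
      (hf.intervalIntegrable _ _)]
  have e2 : 0 ≤ ∫ s in α..u, f s := intervalIntegral.integral_nonneg h1 h0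
  linarith

theorem t1 : S_T1 := by
  intro L K h d al b a2 om hL hK hh hLip htrip
  have hxpos : 0 < 1 / K := by positivity
  set x : ℝ := 1 / K with hx
  have hKx : K * x = 1 := by rw [hx]; field_simp
  have lt1 := htrip.lt1
  have lt2 := htrip.lt2
  have lt3 := htrip.lt3
  have mal : al ∈ Icc al om := ⟨le_rfl, by linarith⟩
  have mb : b ∈ Icc al om := ⟨lt1.le, by linarith⟩
  have ma2 : a2 ∈ Icc al om := ⟨by linarith, lt3.le⟩
  have mom : om ∈ Icc al om := ⟨by linarith, le_rfl⟩
  have len : ∀ r ∈ Icc al om, ∀ s ∈ Icc al om, r ≤ s → 4 ≤ |L r - L s| → r + 4 * x ≤ s := by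
    intro r hr s hs hrs h4
    have h5 := hLip r hr s hs
    rw [abs_sub_comm r s, abs_of_nonneg (by linarith : 0 ≤ s - r)] at h5
    have h6 : K * (4 * x) ≤ K * (s - r) := by
      have : K * (4 * x) = 4 := by linear_combination 4 * hKx
      linarith
    have h7 := le_of_mul_le_mul_left h6 hK
    linarith
  have len1 : al + 4 * x ≤ b := by
    apply len al mal b mb lt1.le
    have := htrip.up1
    rw [abs_sub_comm]
    exact le_trans (by linarith) (le_abs_self _)
  have len2 : b + 4 * x ≤ a2 := by
    apply len b mb a2 ma2 lt2.le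
    have := htrip.down
    exact le_trans (by linarith) (le_abs_self _)
  have len3 : a2 + 4 * x ≤ om := by
    apply len a2 ma2 om mom lt3.le
    have := htrip.up2
    rw [abs_sub_comm]
    exact le_trans (by linarith) (le_abs_self _)
  -- Lipschitz bounds
  have lip : ∀ r ∈ Icc al om, ∀ s ∈ Icc al om, |r - s| ≤ x → L r - 1 ≤ L s ∧ L s ≤ L r + 1 := by
    intro r hr s hs hrs
    have h5 := hLip r hr s hs
    have h6 : K * |r - s| ≤ 1 := by
      rw [← hKx]
      exact mul_le_mul_of_nonneg_left hrs hK.le
    have h7 := abs_le.mp (h5.trans h6)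
    constructor <;> linarith [h7.1, h7.2]
  -- the functions
  let e : ℝ → ℝ := fun s => Real.exp (L s)
  let f : ℝ → ℝ := fun s => Real.exp (-L s)
  have he : Continuous e := Real.continuous_exp.comp hL
  have hf : Continuous f := Real.continuous_exp.comp hL.neg
  have he0 : ∀ s, 0 ≤ e s := fun s => (Real.exp_pos _).le
  have hf0 : ∀ s, 0 ≤ f s := fun s => (Real.exp_pos _).le
  let P : ℝ → ℝ := fun s => ∫ r in al..s, f r
  have hP : Continuous P := intervalIntegral.continuous_primitive
    (fun a b => hf.intervalIntegrable a b) al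
  have hP0 : ∀ s, al ≤ s → 0 ≤ P s := fun s hs =>
    intervalIntegral.integral_nonneg hs (fun r _ => hf0 r)
  let Φ : ℝ → ℝ := fun s => ∫ σ in al..s, e σ * P σ
  have hΦ : Continuous Φ := intervalIntegral.continuous_primitive
    (fun a b => (he.mul hP).intervalIntegrable a b) al
  have hΦ0 : ∀ s, al ≤ s → 0 ≤ Φ s := fun s hs =>
    intervalIntegral.integral_nonneg hs (fun r hr => mul_nonneg (he0 r) (hP0 r hr.1))
  let Q : ℝ → ℝ := fun s => ∫ r in al..s, f r * Φ r
  have hQ : Continuous Q := intervalIntegral.continuous_primitive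
    (fun a b => (hf.mul hΦ).intervalIntegrable a b) al
  have hQ0 : ∀ s, al ≤ s → 0 ≤ Q s := fun s hs =>
    intervalIntegral.integral_nonneg hs (fun r hr => mul_nonneg (hf0 r) (hΦ0 r hr.1))
  -- monotonicity
  have mono : ∀ (g : ℝ → ℝ), Continuous g → (∀ s, al ≤ s → 0 ≤ g s) → ∀ r s, al ≤ r → r ≤ s →
      ∫ u in al..r, g u ≤ ∫ u in al..s, g u := by
    intro g hg hg0 r s hr hrs
    rw [← intervalIntegral.integral_add_adjacent_intervals (hg.intervalIntegrable al r)
      (hg.intervalIntegrable r s)]
    have := intervalIntegral.integral_nonneg (f := g) (μ := volume) hrs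
      (fun u hu => hg0 u (hr.trans hu.1))
    linarith
  have hPm : ∀ r s, al ≤ r → r ≤ s → P r ≤ P s := mono f hf (fun s _ => hf0 s)
  have hΦm : ∀ r s, al ≤ r → r ≤ s → Φ r ≤ Φ s :=
    mono _ (he.mul hP) (fun s hs => mul_nonneg (he0 s) (hP0 s hs))
  have hQm : ∀ r s, al ≤ r → r ≤ s → Q r ≤ Q s :=
    mono _ (hf.mul hΦ) (fun s hs => mul_nonneg (hf0 s) (hΦ0 s hs))
  -- identification of the iterates
  have hT1 : ∀ s, T L al 1 s = Φ s := by
    intro s
    show (∫ σ in al..s, ∫ r in al..σ, Real.exp (L σ - L r) * (1 : ℝ → ℝ) r) = Φ s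
    apply intervalIntegral.integral_congr
    intro σ _
    show (∫ r in al..σ, Real.exp (L σ - L r) * (1 : ℝ → ℝ) r) = e σ * ∫ r in al..σ, f r
    rw [← intervalIntegral.integral_const_mul]
    apply intervalIntegral.integral_congr
    intro r _
    simp only [e, f, Pi.one_apply, mul_one]
    rw [← Real.exp_add, sub_eq_add_neg]
  have hT2 : T L al (T L al 1) om = ∫ σ in al..om, e σ * Q σ := by
    have h1 : T L al 1 = Φ := funext hT1
    rw [h1]
    show (∫ σ in al..om, ∫ r in al..σ, Real.exp (L σ - L r) * Φ r) = _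
    apply intervalIntegral.integral_congr
    intro σ _
    show (∫ r in al..σ, Real.exp (L σ - L r) * Φ r) = e σ * ∫ r in al..σ, f r * Φ r
    rw [← intervalIntegral.integral_const_mul]
    apply intervalIntegral.integral_congr
    intro r _
    simp only [e, f]
    rw [← mul_assoc, ← Real.exp_add, sub_eq_add_neg]
  rw [hT1, hT2]
  set W : ℝ := ∫ σ in al..om, e σ * Q σ with hW
  have heQ : Continuous (fun σ => e σ * Q σ) := he.mul hQ
  have heQ0 : ∀ s, al ≤ s → 0 ≤ e s * Q s := fun s hs => mul_nonneg (he0 s) (hQ0 s hs)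
  -- region (i)
  have R1 : x ^ 2 * Real.exp (h - 2) * (P b * ∫ σ in a2..om, e σ) ≤ W := by
    have s1 : x * (Real.exp (L b - 1) * P b) ≤ Φ (a2 - x) := by
      have := int_lower (fun σ => e σ * P σ) al b (b + x) (a2 - x) (Real.exp (L b - 1) * P b)
        (he.mul hP) lt1.le (by linarith) (by linarith)
        (fun s hs => mul_nonneg (he0 s) (hP0 s hs.1)) (by
          intro s hs
          have hs1 : s ∈ Icc al om := ⟨by linarith [hs.1], by linarith [hs.2]⟩
          have h1 := (lip b mb s hs1 (by
            rw [abs_sub_comm, abs_of_nonneg (by linarith [hs.1])]; linarith [hs.2])).1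
          exact mul_le_mul (Real.exp_le_exp.mpr h1) (hPm b s lt1.le hs.1) (hP0 b lt1.le) (he0 s))
      have h2 : b + x - b = x := by ring
      rw [h2] at this
      exact this
    have s2 : x * (Real.exp (-L a2 - 1) * Φ (a2 - x)) ≤ Q a2 := by
      have := int_lower (fun σ => f σ * Φ σ) al (a2 - x) a2 a2
        (Real.exp (-L a2 - 1) * Φ (a2 - x))
        (hf.mul hΦ) (by linarith) (by linarith) le_rfl
        (fun s hs => mul_nonneg (hf0 s) (hΦ0 s hs.1)) (by
          intro s hs
          have hs1 : s ∈ Icc al om := ⟨by linarith [hs.1], by linarith [hs.2]⟩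
          have h1 := (lip a2 ma2 s hs1 (by
            rw [abs_of_nonneg (by linarith [hs.2])]; linarith [hs.1])).2
          exact mul_le_mul (Real.exp_le_exp.mpr (by linarith)) (hΦm (a2 - x) s (by linarith) hs.1)
            (hΦ0 _ (by linarith)) (hf0 s))
      have h2 : a2 - (a2 - x) = x := by ring
      rw [h2] at this
      exact this
    have s3 : Q a2 * ∫ σ in a2..om, e σ ≤ W := by
      refine le_trans ?_ (int_sub _ al a2 om heQ (by linarith) (fun s hs => heQ0 s hs.1))
      rw [← intervalIntegral.integral_const_mul]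
      apply intervalIntegral.integral_mono_on lt3.le
        ((continuous_const.mul he).intervalIntegrable _ _) (heQ.intervalIntegrable _ _)
      intro s hs
      rw [mul_comm]
      exact mul_le_mul_of_nonneg_left (hQm a2 s (by linarith) hs.1) (he0 s)
    have hI0 : 0 ≤ ∫ σ in a2..om, e σ :=
      intervalIntegral.integral_nonneg lt3.le (fun s _ => he0 s)
    have hexp : Real.exp (h - 2) ≤ Real.exp (-L a2 - 1) * Real.exp (L b - 1) := by
      rw [← Real.exp_add]
      apply Real.exp_le_exp.mpr
      have := htrip.down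
      linarith
    have hPb : 0 ≤ P b := hP0 b lt1.le
    have s4 : x ^ 2 * Real.exp (h - 2) * P b ≤ Q a2 := by
      calc x ^ 2 * Real.exp (h - 2) * P b
          ≤ x ^ 2 * (Real.exp (-L a2 - 1) * Real.exp (L b - 1)) * P b := by
            apply mul_le_mul_of_nonneg_right _ hPb
            exact mul_le_mul_of_nonneg_left hexp (sq_nonneg x)
        _ = x * (Real.exp (-L a2 - 1) * (x * (Real.exp (L b - 1) * P b))) := by ring
        _ ≤ x * (Real.exp (-L a2 - 1) * Φ (a2 - x)) := by
            apply mul_le_mul_of_nonneg_left _ hxpos.le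
            exact mul_le_mul_of_nonneg_left s1 (Real.exp_pos _).le
        _ ≤ Q a2 := s2
    calc x ^ 2 * Real.exp (h - 2) * (P b * ∫ σ in a2..om, e σ)
        = (x ^ 2 * Real.exp (h - 2) * P b) * ∫ σ in a2..om, e σ := by ring
      _ ≤ Q a2 * ∫ σ in a2..om, e σ := mul_le_mul_of_nonneg_right s4 hI0
      _ ≤ W := s3
  -- region (ii)
  have R2 : x ^ 2 * Real.exp (h - 2) * Φ a2 ≤ W := by
    have s1 : x * (Real.exp (-L a2 - 1) * Φ a2) ≤ Q (om - x) := by
      have := int_lower (fun σ => f σ * Φ σ) al a2 (a2 + x) (om - x)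
        (Real.exp (-L a2 - 1) * Φ a2)
        (hf.mul hΦ) (by linarith) (by linarith) (by linarith)
        (fun s hs => mul_nonneg (hf0 s) (hΦ0 s hs.1)) (by
          intro s hs
          have hs1 : s ∈ Icc al om := ⟨by linarith [hs.1], by linarith [hs.2]⟩
          have h1 := (lip a2 ma2 s hs1 (by
            rw [abs_sub_comm, abs_of_nonneg (by linarith [hs.1])]; linarith [hs.2])).2
          exact mul_le_mul (Real.exp_le_exp.mpr (by linarith)) (hΦm a2 s (by linarith) hs.1)
            (hΦ0 _ (by linarith)) (hf0 s))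
      have h2 : a2 + x - a2 = x := by ring
      rw [h2] at this
      exact this
    have s2 : x * (Real.exp (L om - 1) * Q (om - x)) ≤ W := by
      have := int_lower (fun σ => e σ * Q σ) al (om - x) om om
        (Real.exp (L om - 1) * Q (om - x))
        heQ (by linarith) (by linarith) le_rfl
        (fun s hs => heQ0 s hs.1) (by
          intro s hs
          have hs1 : s ∈ Icc al om := ⟨by linarith [hs.1], by linarith [hs.2]⟩
          have h1 := (lip om mom s hs1 (by
            rw [abs_of_nonneg (by linarith [hs.2])]; linarith [hs.1])).1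
          exact mul_le_mul (Real.exp_le_exp.mpr (by linarith)) (hQm (om - x) s (by linarith) hs.1)
            (hQ0 _ (by linarith)) (he0 s))
      have h2 : om - (om - x) = x := by ring
      rw [h2] at this
      exact this
    have hexp : Real.exp (h - 2) ≤ Real.exp (L om - 1) * Real.exp (-L a2 - 1) := by
      rw [← Real.exp_add]
      apply Real.exp_le_exp.mpr
      have := htrip.up2
      linarith
    calc x ^ 2 * Real.exp (h - 2) * Φ a2
        ≤ x ^ 2 * (Real.exp (L om - 1) * Real.exp (-L a2 - 1)) * Φ a2 := by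
          apply mul_le_mul_of_nonneg_right _ (hΦ0 _ (by linarith))
          exact mul_le_mul_of_nonneg_left hexp (sq_nonneg x)
      _ = x * (Real.exp (L om - 1) * (x * (Real.exp (-L a2 - 1) * Φ a2))) := by ring
      _ ≤ x * (Real.exp (L om - 1) * Q (om - x)) := by
          apply mul_le_mul_of_nonneg_left _ hxpos.le
          exact mul_le_mul_of_nonneg_left s1 (Real.exp_pos _).le
      _ ≤ W := s2
  -- region (iii)
  let P' : ℝ → ℝ := fun s => ∫ r in b..s, f r
  have hP' : Continuous P' := intervalIntegral.continuous_primitive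
    (fun a b => hf.intervalIntegrable a b) b
  have hP'0 : ∀ s, b ≤ s → 0 ≤ P' s := fun s hs =>
    intervalIntegral.integral_nonneg hs (fun r _ => hf0 r)
  have R3 : x ^ 2 * Real.exp (h - 2) * (∫ σ in b..om, e σ * P' σ) ≤ W := by
    have s1 : x * Real.exp (-L al - 1) ≤ P (b - x) := by
      have := int_lower f al al (al + x) (b - x)
        (Real.exp (-L al - 1)) hf le_rfl (by linarith) (by linarith)
        (fun s _ => hf0 s) (by
          intro s hs
          have hs1 : s ∈ Icc al om := ⟨by linarith [hs.1], by linarith [hs.2]⟩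
          have h1 := (lip al mal s hs1 (by
            rw [abs_sub_comm, abs_of_nonneg (by linarith [hs.1])]; linarith [hs.2])).2
          exact Real.exp_le_exp.mpr (by linarith))
      have h2 : al + x - al = x := by ring
      rw [h2] at this
      exact this
    have s2 : x * (Real.exp (L b - 1) * P (b - x)) ≤ Φ b := by
      have := int_lower (fun σ => e σ * P σ) al (b - x) b b (Real.exp (L b - 1) * P (b - x))
        (he.mul hP) (by linarith) (by linarith) le_rfl
        (fun s hs => mul_nonneg (he0 s) (hP0 s hs.1)) (by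
          intro s hs
          have hs1 : s ∈ Icc al om := ⟨by linarith [hs.1], by linarith [hs.2]⟩
          have h1 := (lip b mb s hs1 (by
            rw [abs_of_nonneg (by linarith [hs.2])]; linarith [hs.1])).1
          exact mul_le_mul (Real.exp_le_exp.mpr h1) (hPm (b - x) s (by linarith) hs.1)
            (hP0 _ (by linarith)) (he0 s))
      have h2 : b - (b - x) = x := by ring
      rw [h2] at this
      exact this
    have hexp : Real.exp (h - 2) ≤ Real.exp (L b - 1) * Real.exp (-L al - 1) := by
      rw [← Real.exp_add]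
      apply Real.exp_le_exp.mpr
      have := htrip.up1
      linarith
    have s3 : x ^ 2 * Real.exp (h - 2) ≤ Φ b := by
      calc x ^ 2 * Real.exp (h - 2)
          ≤ x ^ 2 * (Real.exp (L b - 1) * Real.exp (-L al - 1)) :=
            mul_le_mul_of_nonneg_left hexp (sq_nonneg x)
        _ = x * (Real.exp (L b - 1) * (x * Real.exp (-L al - 1))) := by ring
        _ ≤ x * (Real.exp (L b - 1) * P (b - x)) := by
            apply mul_le_mul_of_nonneg_left _ hxpos.le
            exact mul_le_mul_of_nonneg_left s1 (Real.exp_pos _).le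
        _ ≤ Φ b := s2
    have s4 : ∀ σ ∈ Icc b om, Φ b * P' σ ≤ Q σ := by
      intro σ hσ
      have h1 : ∫ r in b..σ, f r * Φ r ≤ Q σ :=
        int_sub _ al b σ (hf.mul hΦ) lt1.le (fun s hs => mul_nonneg (hf0 s) (hΦ0 s hs.1))
      refine le_trans ?_ h1
      show Φ b * ∫ r in b..σ, f r ≤ _
      rw [← intervalIntegral.integral_const_mul]
      apply intervalIntegral.integral_mono_on hσ.1
        ((continuous_const.mul hf).intervalIntegrable _ _) ((hf.mul hΦ).intervalIntegrable _ _)
      intro s hs
      rw [mul_comm]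
      exact mul_le_mul_of_nonneg_left (hΦm b s lt1.le hs.1) (hf0 s)
    have s5 : ∫ σ in b..om, e σ * Q σ ≤ W :=
      int_sub _ al b om heQ lt1.le (fun s hs => heQ0 s hs.1)
    refine le_trans ?_ s5
    rw [← intervalIntegral.integral_const_mul]
    apply intervalIntegral.integral_mono_on (by linarith)
      ((continuous_const.mul (he.mul hP')).intervalIntegrable _ _) (heQ.intervalIntegrable _ _)
    intro σ hσ
    have h1 := s4 σ hσ
    have h2 : x ^ 2 * Real.exp (h - 2) * P' σ ≤ Φ b * P' σ :=
      mul_le_mul_of_nonneg_right s3 (hP'0 σ hσ.1)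
    calc x ^ 2 * Real.exp (h - 2) * (e σ * P' σ)
        = e σ * (x ^ 2 * Real.exp (h - 2) * P' σ) := by ring
      _ ≤ e σ * Q σ := mul_le_mul_of_nonneg_left (h2.trans h1) (he0 σ)
  -- the three regions cover
  have hcover : Φ om ≤ Φ a2 + P b * (∫ σ in a2..om, e σ) + ∫ σ in b..om, e σ * P' σ := by
    have h1 : Φ om = Φ a2 + ∫ σ in a2..om, e σ * P σ :=
      (intervalIntegral.integral_add_adjacent_intervals ((he.mul hP).intervalIntegrable al a2)
        ((he.mul hP).intervalIntegrable a2 om)).symm
    have h2 : ∀ σ, P σ = P b + P' σ := fun σ =>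
      (intervalIntegral.integral_add_adjacent_intervals (hf.intervalIntegrable al b)
        (hf.intervalIntegrable b σ)).symm
    have h3 : ∫ σ in a2..om, e σ * P σ
        = P b * (∫ σ in a2..om, e σ) + ∫ σ in a2..om, e σ * P' σ := by
      have hadd := intervalIntegral.integral_add (μ := volume) (f := fun σ => P b * e σ)
        (g := fun σ => e σ * P' σ) (a := a2) (b := om)
        ((continuous_const.mul he).intervalIntegrable _ _)
        ((he.mul hP').intervalIntegrable _ _)
      rw [← intervalIntegral.integral_const_mul, ← hadd]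
      apply intervalIntegral.integral_congr
      intro σ _
      simp only
      rw [h2 σ]
      ring
    have h4 : ∫ σ in a2..om, e σ * P' σ ≤ ∫ σ in b..om, e σ * P' σ :=
      int_sub _ b a2 om (he.mul hP') lt2.le (fun s hs => mul_nonneg (he0 s) (hP'0 s hs.1))
    linarith
  set κ : ℝ := x ^ 2 * Real.exp (h - 2) with hκ
  have hκ0 : 0 < κ := by positivity
  have hκinv : K ^ 2 * Real.exp (2 - h) * κ = 1 := by
    have h1 : Real.exp (2 - h) * Real.exp (h - 2) = 1 := by
      rw [← Real.exp_add]
      simp
    have h2 : K ^ 2 * x ^ 2 = 1 := by rw [← mul_pow, hKx, one_pow]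
    rw [hκ]
    calc K ^ 2 * Real.exp (2 - h) * (x ^ 2 * Real.exp (h - 2))
        = (K ^ 2 * x ^ 2) * (Real.exp (2 - h) * Real.exp (h - 2)) := by ring
      _ = 1 := by rw [h1, h2, one_mul]
  have hfin : κ * Φ om ≤ 3 * W := by
    have := mul_le_mul_of_nonneg_left hcover hκ0.le
    linarith
  have hpos : 0 ≤ K ^ 2 * Real.exp (2 - h) := by positivity
  calc Φ om = (K ^ 2 * Real.exp (2 - h) * κ) * Φ om := by rw [hκinv, one_mul]
    _ = K ^ 2 * Real.exp (2 - h) * (κ * Φ om) := by ring
    _ ≤ K ^ 2 * Real.exp (2 - h) * (3 * W) := mul_le_mul_of_nonneg_left hfin hpos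
    _ = 3 * K ^ 2 * Real.exp (2 - h) * W := by ring

end Pool.Agent.W298.LG
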