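import Pool.Agent.W617.LG.StmIV

set_option autoImplicit false

open Topology Filter Set
open scoped ContDiff

namespace Pool.Agent.W298.LG

open Pool.Agent.W617.LG

theorem unq : S_UNQ := by
  intro q X U hU hX a b t₀ γ δ ht₀ hγ hδ heq
  have hγc : ContinuousOn γ (Ioo a b) := fun t ht => (hγ t ht).2.continuousAt.continuousWithinAt
  have hδc : ContinuousOn δ (Ioo a b) := fun t ht => (hδ t ht).2.continuousAt.continuousWithinAt
  have hloc : ∀ t ∈ Ioo a b, γ t = δ t → ∀ᶠ s in 𝓝 t, γ s = δ s := by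
    intro t ht h
    have h1 : ContDiffAt ℝ 1 X (γ t) :=
      ((hX (γ t) (hγ t ht).1).contDiffAt (hU.mem_nhds (hγ t ht).1)).of_le (by simp)
    obtain ⟨K, S, hS, hK⟩ := h1.exists_lipschitzOnWith
    have hIoo : ∀ᶠ s in 𝓝 t, s ∈ Ioo a b := isOpen_Ioo.mem_nhds ht
    have hγS : ∀ᶠ s in 𝓝 t, γ s ∈ S := (hγ t ht).2.continuousAt.eventually_mem hS
    have hδS : ∀ᶠ s in 𝓝 t, δ s ∈ S := by
      apply (hδ t ht).2.continuousAt.eventually_mem
      rwa [← h]
    have := ODE_solution_unique_of_eventually (v := fun _ => X) (s := fun _ => S) (K := K)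
      (t₀ := t) (f := γ) (g := δ) (Eventually.of_forall fun _ => hK)
      (by filter_upwards [hIoo, hγS] with s h1 h2 using ⟨(hγ s h1).2, h2⟩)
      (by filter_upwards [hIoo, hδS] with s h1 h2 using ⟨(hδ s h1).2, h2⟩) h
    exact this
  have hsub : Ioo a b ⊆ {t | ∀ᶠ s in 𝓝 t, γ s = δ s} := by
    apply IsPreconnected.subset_left_of_subset_union (v := Ioo a b ∩ {t | γ t ≠ δ t})
      isOpen_setOf_eventually_nhds
    · have : Ioo a b ∩ {t | γ t ≠ δ t} = Ioo a b ∩ (fun t => (γ t, δ t)) ⁻¹' {p | p.1 ≠ p.2} := rfl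
      rw [this]
      exact (hγc.prodMk hδc).isOpen_inter_preimage isOpen_Ioo
        (isOpen_ne_fun continuous_fst continuous_snd)
    · rw [Set.disjoint_left]
      intro t h1 h2
      exact h2.2 h1.self_of_nhds
    · intro t ht
      by_cases h : γ t = δ t
      · exact Or.inl (hloc t ht h)
      · exact Or.inr ⟨ht, h⟩
    · exact ⟨t₀, ht₀, hloc t₀ ht₀ heq⟩
    · exact isPreconnected_Ioo
  intro t ht
  exact (hsub ht).self_of_nhds

end Pool.Agent.W298.LG
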